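import Mathlib
import Pool.Agent.H28.BaireG

set_option autoImplicit false

namespace Pool.Agent.Results.MP_e733ef_an.NotAsplund

open Set Submodule Filter Topology BoundedContinuousFunction Bornology H28.BaireG

/-- Frechet differentiability at `x` (uniformly on bounded sets) -/
def Frechet {E : Type} [AddCommGroup E] [Module ℝ E] [TopologicalSpace E] (f : E → ℝ) (x : E) :
    Prop := ∃ φ : E →L[ℝ] ℝ, ∀ B : Set E, IsVonNBounded ℝ B → ∀ ε > 0, ∃ δ > 0, ∀ t : ℝ,
  0 < |t| → |t| < δ → ∀ v ∈ B, |(f (x + t • v) - f x) / t - φ v| < ε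

noncomputable def L (x : X) : ℝ := limsup x atTop

lemma b1 (x : X) : IsBoundedUnder (· ≤ ·) atTop x :=
  isBoundedUnder_of ⟨‖x‖, fun n => (le_abs_self _).trans (x.norm_coe_le_norm n)⟩

lemma b2 (x : X) : IsCoboundedUnder (· ≤ ·) atTop x :=
  isCoboundedUnder_le_of_le (x := -‖x‖) _ fun n => (abs_le.1 (x.norm_coe_le_norm n)).1

lemma comb (x y : X) {a b : ℝ} (ha : 0 ≤ a) (hb : 0 ≤ b) : L (a • x + b • y) ≤ a * L x + b * L y :=
  le_of_forall_pos_le_add fun ε hε => limsup_le_of_le (b2 _) (by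
    have h : 0 < ε / (a + b + 1) := by positivity
    filter_upwards [eventually_lt_of_limsup_lt (lt_add_of_pos_right (L x) h) (b1 x),
      eventually_lt_of_limsup_lt (lt_add_of_pos_right (L y) h) (b1 y)] with n h1 h2
    have : ε / (a + b + 1) * (a + b + 1) = ε := by field_simp
    show a * x n + b * y n ≤ _
    nlinarith [mul_le_mul_of_nonneg_left h1.le ha, mul_le_mul_of_nonneg_left h2.le hb])

lemma cont : Continuous L := (LipschitzWith.of_le_add fun x y => by
  have := comb y (x - y) zero_le_one zero_le_one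
  have h : L (x - y) ≤ dist x y := limsup_le_of_le (b2 _) (.of_forall fun n =>
    (le_abs_self (x n - y n)).trans (dist_coe_le_dist (f := x) (g := y) n))
  simp only [one_smul, add_sub_cancel, one_mul] at this
  linarith).continuous

lemma kink (x : X) : ∃ v : X, ∀ t : ℝ, L x + t ≤ L (x + t • v) ∧ L x ≤ L (x + t • v) := by
  classical
  obtain ⟨s, h1, h2⟩ := exists_seq_tendsto_limsup (b2 x) (b1 x)
  obtain ⟨ψ, h3, h4⟩ := strictMono_subseq_of_tendsto_atTop h2
  let v : X := ofNormedAddCommGroupDiscrete (fun n => if ∃ k, s (ψ (2 * k)) = n then 1 else 0) 1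
    fun n => by split_ifs <;> simp
  have k : ∀ (y : X) (σ : ℕ → ℕ) c, StrictMono σ → Tendsto (fun k => y (s (ψ (σ k)))) atTop (𝓝 c) →
      c ≤ L y := fun y σ c hσ h => (MapClusterPt.of_comp (h4.comp hσ).tendsto_atTop
        h.mapClusterPt).le_limsup (b1 y)
  have a : StrictMono fun k : ℕ => 2 * k := fun _ _ h => by simpa
  have b : StrictMono fun k : ℕ => 2 * k + 1 := fun _ _ h => by simpa
  refine ⟨v, fun t => ⟨k _ _ _ a (((h1.comp (h3.comp a).tendsto_atTop).add_const t).congr fun k => ?_),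
    k _ _ _ b ((h1.comp (h3.comp b).tendsto_atTop).congr fun k => ?_)⟩⟩
  · simp [v]
  · have : ¬ ∃ j, s (ψ (2 * j)) = s (ψ (2 * k + 1)) := fun ⟨j, h⟩ => by
      have := h4.injective h; omega
    simp [v, this]

lemma sep {E : Type} [AddCommGroup E] [Module ℝ E] [TopologicalSpace E] [IsTopologicalAddGroup E]
    [ContinuousSMul ℝ E] (π : E →L[ℝ] X) (hπ : Function.Injective π)
    (hfd : ∀ B : Set E, IsVonNBounded ℝ B → FiniteDimensional ℝ (span ℝ B)) :
    TopologicalSpace.SeparableSpace (StrongDual ℝ E) := by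
  let ev : ℕ → StrongDual ℝ E := fun n => (evalCLM ℝ n).comp π
  refine TopologicalSpace.isSeparable_univ_iff.1 (((countable_range ev).isSeparable.span
    (R := ℝ)).closure.mono fun ψ _ => mem_closure_iff_nhds_zero.2 fun U hU => ?_)
  obtain ⟨⟨B, V⟩, ⟨hB, hV⟩, h⟩ := ContinuousLinearMap.hasBasis_nhds_zero.mem_iff.1 hU
  have := hfd B hB
  have := FiniteDimensional.mem_span_of_iInf_ker_le_ker
    (L := fun n => (ev n).toLinearMap ∘ₗ (span ℝ B).subtype)
    (K := ψ.toLinearMap ∘ₗ (span ℝ B).subtype) fun x hx => by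
      have : x.1 = 0 := hπ (by
        rw [map_zero]; ext n; exact (Submodule.mem_iInf _).1 hx n)
      simp [this]
  obtain ⟨c, hc⟩ := Finsupp.mem_span_range_iff_exists_finsupp.1 this
  refine ⟨c.sum fun i a => a • ev i, Finsupp.mem_span_range_iff_exists_finsupp.2 ⟨c, rfl⟩,
    h fun x hx => ?_⟩
  have := LinearMap.congr_fun hc ⟨x, subset_span hx⟩
  simp only [Finsupp.sum, LinearMap.coe_sum, Finset.sum_apply, LinearMap.smul_apply,
    LinearMap.comp_apply, subtype_apply, ContinuousLinearMap.coe_coe, smul_eq_mul] at this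
  simpa [Finsupp.sum, this] using mem_of_mem_nhds hV

/-- A Baire locally convex space with separable strong dual that is not Asplund. -/
theorem result : ∃ (E : Type) (_ : AddCommGroup E) (_ : Module ℝ E) (_ : TopologicalSpace E)
    (_ : IsTopologicalAddGroup E) (_ : ContinuousSMul ℝ E), LocallyConvexSpace ℝ E ∧ T2Space E ∧
    BaireSpace E ∧ TopologicalSpace.SeparableSpace (StrongDual ℝ E) ∧
    ∃ f : E → ℝ, Continuous f ∧ ConvexOn ℝ univ f ∧ ∀ x, ¬ Frechet f x := by
  obtain ⟨Φ, h1, h2⟩ := exists_Φ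
  let π : Φ.graph →L[ℝ] X := (ContinuousLinearMap.fst ℝ _ _).comp Φ.graph.subtypeL
  have hπ : Function.Injective π := fun x y h =>
    Subtype.ext (Prod.ext h (x.2.trans ((congrArg Φ h).trans y.2.symm)))
  refine ⟨Φ.graph, inferInstance, inferInstance, inferInstance, inferInstance, inferInstance,
    inferInstance, inferInstance, baire Φ h2, ?_, fun x => L (π x), cont.comp π.continuous,
    ⟨convex_univ, fun x _ y _ a b ha hb _ => by simpa using comb (π x) (π y) ha hb⟩, ?_⟩
  · refine sep π hπ fun B hB => ?_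
    obtain ⟨b, hb, hb', hi⟩ := exists_linearIndependent ℝ B
    refine hb' ▸ FiniteDimensional.span_of_finite ℝ (not_infinite.1 fun hf => ?_)
    let z : F := ⟨fun n => π (hf.natEmbedding b n), (hi.comp _ (hf.natEmbedding b).injective).map'
      π.toLinearMap (LinearMap.ker_eq_bot_of_injective hπ)⟩
    obtain ⟨C, hC⟩ := (NormedSpace.isVonNBounded_iff' ℝ).1 (hB.image ((ContinuousLinearMap.proj z).comp
      ((ContinuousLinearMap.snd ℝ _ _).comp Φ.graph.subtypeL)))
    obtain ⟨n, hn⟩ := exists_nat_gt C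
    have := hC _ ⟨_, hb (hf.natEmbedding b n).2, rfl⟩
    have e : (hf.natEmbedding b n).1.1.2 z = n := (congrFun (hf.natEmbedding b n).1.2 z).trans (h1 z n)
    exact hn.not_ge (by simpa [e] using this)
  · rintro x ⟨φ, h⟩
    obtain ⟨v, hv⟩ := kink (π x)
    obtain ⟨δ, h0, h⟩ := h _ (isVonNBounded_singleton ⟨(v, Φ v), rfl⟩) (1 / 2) (by norm_num)
    have a := (abs_lt.1 (h (δ / 2) (by positivity) (by rw [abs_of_pos] <;> linarith) _ rfl)).2
    have b := (abs_lt.1 (h (-(δ / 2)) (by rw [abs_neg]; positivity)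
      (by rw [abs_neg, abs_of_pos] <;> linarith) _ rfl)).1
    simp only [map_add, map_smul, show π ⟨(v, Φ v), rfl⟩ = v from rfl] at a b
    have a' := (one_le_div (half_pos h0)).2 (le_sub_iff_add_le'.2 (hv (δ / 2)).1)
    have b' := div_nonpos_of_nonneg_of_nonpos (sub_nonneg.2 (hv (-(δ / 2))).2)
      (neg_nonpos.2 (half_pos h0).le)
    linarith

end Pool.Agent.Results.MP_e733ef_an.NotAsplund
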